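import Pool.Agent.H11.Fm

set_option autoImplicit false

namespace Pool.Agent.Results.MP_a1eae6_lc.Sigma2
open Pool.Agent.H11.PT

/-- ISO-IMP: some permutation `π` of the variables occurring in `φ` or `ψ` makes `π(φ) ⇒ ψ`. -/
def IsoImp (y : Fm × Fm) : Prop :=
  ∃ π : Equiv.Perm ℕ, (∀ v, v ∉ y.1.vars → v ∉ y.2.vars → π v = v) ∧
    ∀ σ : ℕ → Bool, (y.1.ren π).eval σ = true → y.2.eval σ = true

def chk (y : Fm × Fm) (c d : List ℕ) : Bool :=
  (List.range (sz y)).all (fun i => decide (c.getD i 0 < sz y) &&
    (List.range (sz y)).all (fun j => decide (c.getD i 0 = c.getD j 0 → i = j)) &&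
    (List.range (sz y)).any (fun j => c.getD j 0 == i) &&
    (y.1.post.contains (i + 3) || y.2.post.contains (i + 3) || c.getD i 0 == i)) &&
  (!y.1.eval (fun v => d.contains (c.getD v 0)) || y.2.eval fun v => d.contains v)

theorem chk_pt : PT fun p : (Fm × Fm) × List ℕ × List ℕ => chk p.1 p.2.1 p.2.2 := by
  unfold chk
  simp only [imp_iff_not_or]
  fun_prop

theorem mem : InSigma2 IsoImp := by
  refine PT.inSigma2_nats chk_pt (fun y => sz y + sz y * sz y + sz (List.range (sz y)))
    (by fun_prop) (fun y c h => ?_) fun y ⟨π, h1, h2⟩ => ?_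
  · have h0 := h [] (by simp)
    simp only [chk, Bool.and_eq_true, List.all_eq_true, List.mem_range, decide_eq_true_eq,
      List.any_eq_true, beq_iff_eq, Bool.or_eq_true, List.contains_iff_mem, ← Fm.vars_post] at h0
    have h1 := h0.1
    let f : ℕ → ℕ := fun i => if i < sz y then c.getD i 0 else i
    have hb : Function.Bijective f := by
      constructor
      · intro i j e
        simp only [f] at e
        split_ifs at e with a b b
        · exact (h1 i a).1.1.2 j b e
        · have := (h1 i a).1.1.1; omega
        · have := (h1 j b).1.1.1; omega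
        · exact e
      · intro i
        by_cases a : i < sz y
        · obtain ⟨j, b, e⟩ := (h1 i a).1.2
          exact ⟨j, by simp only [f, if_pos b, e]⟩
        · exact ⟨i, by simp only [f, if_neg a]⟩
    refine ⟨Equiv.ofBijective f hb, fun v a b => ?_, fun σ hσ => ?_⟩
    · simp only [Equiv.ofBijective_apply, f]
      split_ifs with hv
      · simpa [a, b] using (h1 v hv).2
      · rfl
    · have h3 := h ((List.range (sz y)).filter σ) (by
        have := (len_sum_le _).trans
          (sz_sublist (List.filter_sublist (p := σ) (l := List.range (sz y))))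
        omega)
      have h4 : ∀ v < sz y, ((List.range (sz y)).filter σ).contains v = σ v := by
        intro v hv; cases hs : σ v <;> simp [hs, hv]
      have l1 : ∀ v ∈ y.1.vars, v < sz y := fun v hv => by
        have := Fm.vars_lt hv; rw [show sz y = sz (y.1, y.2) from rfl, sz_pair]; omega
      have l2 : ∀ v ∈ y.2.vars, v < sz y := fun v hv => by
        have := Fm.vars_lt hv; rw [show sz y = sz (y.1, y.2) from rfl, sz_pair]; omega
      simp only [chk, Bool.and_eq_true, Bool.or_eq_true, Bool.not_eq_true'] at h3
      rw [Fm.eval_ren, Fm.eval_congr (τ := fun v => ((List.range (sz y)).filter σ).contains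
        (c.getD v 0)) (fun v hv => by
          simp only [Equiv.ofBijective_apply, f, if_pos (l1 v hv), h4 _ (h1 v (l1 v hv)).1.1.1])] at hσ
      rw [← Fm.eval_congr fun v hv => h4 v (l2 v hv)]
      exact h3.2.resolve_left (by rw [hσ]; simp)
  · have l1 : ∀ v ∈ y.1.vars, v < sz y := fun v hv => by
      have := Fm.vars_lt hv; rw [show sz y = sz (y.1, y.2) from rfl, sz_pair]; omega
    have l2 : ∀ v ∈ y.2.vars, v < sz y := fun v hv => by
      have := Fm.vars_lt hv; rw [show sz y = sz (y.1, y.2) from rfl, sz_pair]; omega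
    have h3 : ∀ v, sz y ≤ v → π v = v := fun v hv =>
      h1 v (fun h => by have := l1 v h; omega) (fun h => by have := l2 v h; omega)
    have h4 : ∀ v < sz y, π v < sz y := by
      intro v hv
      by_contra h
      have := π.injective (h3 _ (not_lt.1 h))
      omega
    have h5 : ∀ v < sz y, ((List.range (sz y)).map π).getD v 0 = π v := by
      intro v hv; simp [List.getD_eq_getElem?_getD, hv]
    refine ⟨(List.range (sz y)).map π, ?_, fun d => ?_⟩
    · have := List.sum_le_card_nsmul ((List.range (sz y)).map π) (sz y) (by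
        intro x hx
        obtain ⟨v, hv, rfl⟩ := List.mem_map.1 hx
        exact (h4 v (List.mem_range.1 hv)).le)
      simp only [List.length_map, List.length_range, smul_eq_mul] at this ⊢
      omega
    · simp only [chk, Bool.and_eq_true, List.all_eq_true, List.mem_range, decide_eq_true_eq,
        List.any_eq_true, beq_iff_eq, Bool.or_eq_true, List.contains_iff_mem, ← Fm.vars_post,
        Bool.not_eq_true']
      refine ⟨fun i hi => ⟨⟨⟨by rw [h5 i hi]; exact h4 i hi, fun j hj e => ?_⟩, π.symm i, ?_⟩, ?_⟩, ?_⟩
      · rw [h5 i hi, h5 j hj] at e; exact π.injective e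
      · have : π.symm i < sz y := by
          by_contra h
          have := h3 _ (not_lt.1 h)
          rw [Equiv.apply_symm_apply] at this
          omega
        exact ⟨this, by rw [h5 _ this, Equiv.apply_symm_apply]⟩
      · rw [h5 i hi]
        by_contra h
        push Not at h
        exact h.2 (h1 i h.1.1 h.1.2)
      · have := h2 fun v => d.contains v
        rw [Fm.eval_ren] at this
        rw [Fm.eval_congr (τ := fun v => d.contains (π v)) fun v hv => by rw [h5 v (l1 v hv)]]
        revert this
        cases y.1.eval fun v => d.contains (π v) <;> simp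

def fA (D : List ℕ) : Fm := Fm.all (D.map fun v => .conj (.var (2 * v)) (.neg (.var (2 * v + 1))))
def fB (y : List ℕ × List (List Lit)) : Fm :=
  .conj (Fm.all (y.1.map fun v => .conj (.disj (.var (2 * v)) (.var (2 * v + 1)))
      (.neg (.conj (.var (2 * v)) (.var (2 * v + 1))))))
    (.neg (Fm.all (y.2.map fun c => Fm.any (c.map (Fm.lit fun v => 2 * v)))))

theorem evA (D : List ℕ) (σ : ℕ → Bool) :
    (fA D).eval σ = true ↔ ∀ v ∈ D, σ (2 * v) = true ∧ σ (2 * v + 1) = false := by
  simp [fA, Fm.eval_all, Fm.eval]

theorem evB (y : List ℕ × List (List Lit)) (σ : ℕ → Bool) : (fB y).eval σ = true ↔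
    (∀ v ∈ y.1, σ (2 * v) ≠ σ (2 * v + 1)) ∧ ¬ Sat (fun v => σ (2 * v)) y.2 := by
  rw [← Fm.eval_cnf]
  simp only [fB, Fm.eval, Bool.and_eq_true, Bool.not_eq_true', Bool.not_eq_true]
  refine and_congr ?_ Iff.rfl
  simp only [Fm.eval_all, List.forall_mem_map, Fm.eval]
  refine forall₂_congr fun v _ => ?_
  cases σ (2 * v) <;> cases σ (2 * v + 1) <;> simp

theorem correct (y : List ℕ × List (List Lit)) : ESAT y ↔ IsoImp (fA y.1, fB y) := by
  classical
  simp only [IsoImp, Fm.eval_ren, evA, evB]
  constructor
  · rintro ⟨τ, h⟩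
    let f : ℕ → ℕ := fun n => if n / 2 ∈ y.1 ∧ τ (n / 2) = false then
      (if n % 2 = 0 then n + 1 else n - 1) else n
    have f0 : ∀ v, f (2 * v) = if v ∈ y.1 ∧ τ v = false then 2 * v + 1 else 2 * v := by
      intro v; simp [f]
    have f1 : ∀ v, f (2 * v + 1) = if v ∈ y.1 ∧ τ v = false then 2 * v else 2 * v + 1 := by
      intro v
      have : (2 * v + 1) / 2 = v := by omega
      simp [f, this]
    have hf : Function.Involutive f := by
      intro n
      obtain ⟨v, rfl | rfl⟩ := n.even_or_odd'
      · rw [f0]; split_ifs with h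
        · rw [f1, if_pos h]
        · rw [f0, if_neg h]
      · rw [f1]; split_ifs with h
        · rw [f0, if_pos h]
        · rw [f1, if_neg h]
    refine ⟨hf.toPerm, fun n a _ => ?_, fun σ hσ => ?_⟩
    · simp only [Function.Involutive.coe_toPerm, f]
      rw [if_neg]
      intro h
      refine a (Fm.vars_all (List.mem_map_of_mem h.1) ?_)
      simp [Fm.vars]; omega
    · simp only [Function.Involutive.coe_toPerm, f0, f1] at hσ
      have : ∀ v ∈ y.1, σ (2 * v) = τ v ∧ σ (2 * v) ≠ σ (2 * v + 1) := by
        intro v hv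
        have := hσ v hv
        cases ht : τ v <;> simp_all
      exact ⟨fun v hv => (this v hv).2, h _ fun v hv => (this v hv).1⟩
  · rintro ⟨π, -, h⟩
    let W : Finset ℕ := y.1.toFinset.biUnion fun v => {2 * v, 2 * v + 1}
    have hW : ∀ n, n ∈ W ↔ n / 2 ∈ y.1 := by
      intro n
      simp only [W, Finset.mem_biUnion, List.mem_toFinset, Finset.mem_insert, Finset.mem_singleton]
      constructor
      · rintro ⟨v, hv, e⟩; rwa [show n / 2 = v by omega]
      · intro h; exact ⟨_, h, by omega⟩
    let s : (ℕ → Bool) → ℕ → Bool := fun ρ n =>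
      if π.symm n ∈ W then decide (π.symm n % 2 = 0) else ρ n
    have hs : ∀ ρ, (∀ v ∈ y.1, s ρ (2 * v) ≠ s ρ (2 * v + 1)) ∧ ¬ Sat (fun v => s ρ (2 * v)) y.2 := by
      intro ρ
      refine h _ fun v hv => ?_
      have a : 2 * v ∈ W := (hW _).2 (by simpa using hv)
      have b : 2 * v + 1 ∈ W := (hW _).2 (by rwa [show (2 * v + 1) / 2 = v by omega])
      simp [s, a, b]
    have h1 : W ⊆ W.image π := by
      intro n hn
      by_contra hc
      have a : π.symm n ∉ W := fun a => hc (Finset.mem_image.2 ⟨_, a, by simp⟩)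
      obtain ⟨v, rfl | rfl⟩ := n.even_or_odd'
      · have hv : v ∈ y.1 := by simpa using (hW _).1 hn
        have := (hs fun _ => s (fun _ => true) (2 * v + 1)).1 v hv
        revert this
        simp only [s, if_neg a]
        split_ifs <;> simp
      · have hv : v ∈ y.1 := by have := (hW _).1 hn; rwa [show (2 * v + 1) / 2 = v by omega] at this
        have := (hs fun _ => s (fun _ => true) (2 * v)).1 v hv
        revert this
        simp only [s, if_neg a]
        split_ifs <;> simp
    have h2 := Finset.eq_of_subset_of_card_le h1 Finset.card_image_le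
    refine ⟨fun v => s (fun _ => true) (2 * v), fun ρ hρ hc => ?_⟩
    refine (hs fun n => ρ (n / 2)).2 ?_
    have : ∀ v, s (fun n => ρ (n / 2)) (2 * v) = ρ v := by
      intro v
      by_cases a : π.symm (2 * v) ∈ W
      · have b : 2 * v ∈ W := by rw [h2]; exact Finset.mem_image.2 ⟨_, a, by simp⟩
        rw [hρ v (by simpa using (hW _).1 b)]
        simp only [s, if_pos a]
      · simp [s, a]
    simpa only [this] using hc

theorem result : Sigma2Complete IsoImp :=
  ((hard_ESAT.red (Val' := fun _ => True) (fun y => (fA y.1, fB y))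
    (by unfold fA fB Fm.lit; fun_prop) fun y _ => ⟨trivial, correct y⟩).sigma2 mem).1

end Pool.Agent.Results.MP_a1eae6_lc.Sigma2
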